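import Pool.Agent.H801.Fvs.Main

/-!
# FAIR FEEDBACK VERTEX SET has no polynomial kernel, unless `coNP` is contained in `NP/poly`
-/

namespace Pool.Agent.Results.MP_a87d5d_lc.NoPolyKernel

open Pool.Agent.NPC Pool.Agent.H801.Fvs

/-- If FAIR FEEDBACK VERTEX SET, parameterized by the solution size `k` (with the fairness factor
`d` in the input), has a polynomial kernel, then `coNP` is contained in `NP/poly`. The same follows
if the instances can be mapped in polynomial time to strings of length polynomial in `k` such that
the yes-instances are those whose strings belong to some fixed (arbitrary) set. -/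
theorem result : (PolyKernel → ∀ L : Set (List Bool), InCoNP L → InNPpoly L) ∧
    (PolyCompression → ∀ L : Set (List Bool), InCoNP L → InNPpoly L) :=
  ⟨fun h => Pool.Agent.H801.Fvs.main h.compression, Pool.Agent.H801.Fvs.main⟩

end Pool.Agent.Results.MP_a87d5d_lc.NoPolyKernel
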